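import Pool.Agent.Q324.CN.Main
import Pool.Agent.NPC.Dec

/-!
# MP_54ee58_lc: deciding whether the core equals the nucleus is NP-hard and coNP-hard
-/

namespace Pool.Agent.Results.MP_54ee58_lc.CoreNucleusHard

open Pool.Agent.NPC Pool.Agent.H692R2 Pool.Agent.Q324.CN

/-- Deciding `core(G) = nucleus(G)` for a finite graph `G` given by its adjacency matrix is
`NP`-hard and `coNP`-hard. -/
theorem result :
    NPHardP (fun G : FinGraph => core G.graph = nucleus G.graph) ∧
    CoNPHardP (fun G : FinGraph => core G.graph = nucleus G.graph) :=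
  ⟨hard1.toHardI.toNPHardP, hard2.toCoNPHardP⟩

end Pool.Agent.Results.MP_54ee58_lc.CoreNucleusHard
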